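import Pool.Agent.R544.FD.Words

/-!
The Hausdorff dimension of an orbit closure bounds the number of words (Furstenberg).
-/

set_option autoImplicit false

namespace Pool.Agent.R544.FD

open Finset Pool.Agent.R544.EM MeasureTheory
open scoped ENNReal NNReal

/-- the closure of the orbit -/
def O (b : ℕ) (x : ℝ) : Set ℝ := closure (Set.range fun n : ℕ => Int.fract ((b : ℝ) ^ n * x))

lemma O_sub (b : ℕ) (x : ℝ) : O b x ⊆ Set.Icc 0 1 := by
  refine closure_minimal ?_ isClosed_Icc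
  rintro _ ⟨n, rfl⟩
  exact ⟨Int.fract_nonneg _, (Int.fract_lt_one _).le⟩

lemma O_compact (b : ℕ) (x : ℝ) : IsCompact (O b x) :=
  isCompact_Icc.of_isClosed_subset isClosed_closure (O_sub b x)

lemma level (b : ℕ) (hb : 2 ≤ b) (s : ℝ) (hs : 0 < s) (δ e : ℝ) (hδ : 0 ≤ δ) (hδ1 : δ < 1 / b)
    (he : 0 < e) : ∃ k : ℕ, 1 ≤ k ∧ δ ≤ (1 / (b : ℝ)) ^ k ∧
      (b : ℝ) ^ (-(s * k)) ≤ (b : ℝ) ^ s * δ ^ s + e := by
  have hbR : (2 : ℝ) ≤ b := by exact_mod_cast hb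
  have hb0 : (0 : ℝ) < b := by linarith
  have hb1 : 1 / (b : ℝ) < 1 := by rw [div_lt_one hb0]; linarith
  have hbp : 0 < 1 / (b : ℝ) := by positivity
  have hpow : ∀ k : ℕ, (b : ℝ) ^ (-(s * k)) = ((1 / (b : ℝ)) ^ k) ^ s := by
    intro k
    rw [← Real.rpow_natCast (1 / (b : ℝ)) k, ← Real.rpow_mul hbp.le, one_div,
      Real.inv_rpow hb0.le, ← Real.rpow_neg hb0.le]
    congr 1
    ring
  rcases hδ.eq_or_lt with h0 | hpos
  · -- `δ = 0`
    have hy0 : 0 < (1 / (b : ℝ)) ^ s := by positivity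
    have hy1 : (1 / (b : ℝ)) ^ s < 1 := Real.rpow_lt_one hbp.le hb1 hs
    obtain ⟨k, hk⟩ := exists_pow_lt_of_lt_one he hy1
    refine ⟨k + 1, by omega, by rw [← h0]; positivity, ?_⟩
    rw [hpow, ← h0, Real.zero_rpow hs.ne', mul_zero, zero_add]
    have e1 : ((1 / (b : ℝ)) ^ (k + 1)) ^ s = ((1 / (b : ℝ)) ^ s) ^ (k + 1) := by
      rw [← Real.rpow_natCast, ← Real.rpow_natCast, ← Real.rpow_mul hbp.le, ← Real.rpow_mul hbp.le,
        mul_comm]
    rw [e1, pow_succ]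
    have : 0 < ((1 / (b : ℝ)) ^ s) ^ k := by positivity
    nlinarith
  · obtain ⟨k, hk1, hk2⟩ := exists_nat_pow_near_of_lt_one hpos (by linarith) hbp hb1
    have hk0 : 1 ≤ k := by
      by_contra hcon
      have : k = 0 := by omega
      rw [this, zero_add, pow_one] at hk1
      linarith
    refine ⟨k, hk0, hk2, ?_⟩
    rw [hpow]
    have h1 : (1 / (b : ℝ)) ^ k ≤ b * δ := by
      rw [pow_succ] at hk1
      have h2 : (1 / (b : ℝ)) ^ k * (1 / b) * b = (1 / (b : ℝ)) ^ k := by field_simp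
      have h3 := mul_lt_mul_of_pos_right hk1 hb0
      rw [h2] at h3
      linarith
    have h2 : ((1 / (b : ℝ)) ^ k) ^ s ≤ (b * δ) ^ s := Real.rpow_le_rpow (by positivity) h1 hs.le
    rw [Real.mul_rpow hb0.le hδ] at h2
    linarith

/-- **Words from a cover.** -/
theorem exists_prefix (b : ℕ) (hb : 2 ≤ b) (y s : ℝ) (hs : 0 < s)
    (hd : dimH (O b y) < ENNReal.ofReal s) :
    ∃ (F : Finset (ℕ × ℤ)) (K : ℕ), (∀ f ∈ F, 1 ≤ f.1 ∧ f.1 ≤ K) ∧
      (∀ i, ∃ f ∈ F, word b f.1 y i = f.2) ∧ ∑ f ∈ F, (b : ℝ) ^ (-(s * f.1)) ≤ 1 := by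
  classical
  have hbR : (2 : ℝ) ≤ b := by exact_mod_cast hb
  have hb0 : (0 : ℝ) < b := by linarith
  set X := O b y with hX
  have hμ : μH[s] X = 0 := by
    have h1 : dimH X < ((s.toNNReal : ℝ≥0) : ℝ≥0∞) := hd
    have h2 := hausdorffMeasure_of_dimH_lt h1
    rwa [Real.coe_toNNReal s hs.le] at h2
  set B : ℝ := (b : ℝ) ^ s with hB
  have hB0 : 0 < B := by positivity
  set ε : ℝ := 1 / (5 * (B + 1)) with hε
  have hε0 : 0 < ε := by positivity
  -- a cover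
  obtain ⟨t, hcov, hdiam, hsum⟩ : ∃ t : ℕ → Set ℝ, X ⊆ ⋃ n, t n ∧
      (∀ n, Metric.ediam (t n) ≤ ENNReal.ofReal (1 / (2 * b))) ∧
      ∑' n, ⨆ _ : (t n).Nonempty, Metric.ediam (t n) ^ s < ENNReal.ofReal ε := by
    rw [Measure.hausdorffMeasure_apply] at hμ
    have h1 := (iSup_eq_bot.1 hμ) (ENNReal.ofReal (1 / (2 * b)))
    have h2 := (iSup_eq_bot.1 h1) (ENNReal.ofReal_pos.2 (by positivity))
    have h3 : (⨅ (t : ℕ → Set ℝ) (_ : X ⊆ ⋃ n, t n)
        (_ : ∀ n, Metric.ediam (t n) ≤ ENNReal.ofReal (1 / (2 * b))),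
          ∑' n, ⨆ _ : (t n).Nonempty, Metric.ediam (t n) ^ s) < ENNReal.ofReal ε := by
      rw [h2]
      exact ENNReal.ofReal_pos.2 hε0
    simp only [iInf_lt_iff] at h3
    obtain ⟨t, h4, h5, h6⟩ := h3
    exact ⟨t, h4, h5, h6⟩
  obtain ⟨ε', hε', c, hc, hcε⟩ := posSumOfEncodable hε0 ℕ
  -- the diameters
  have hfin : ∀ n, Metric.ediam (t n) ≠ ∞ := fun n => ((hdiam n).trans_lt ENNReal.ofReal_lt_top).ne
  set δ : ℕ → ℝ := fun n => (Metric.ediam (t n)).toReal with hδ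
  have hδ0 : ∀ n, 0 ≤ δ n := fun n => ENNReal.toReal_nonneg
  have hδe : ∀ n, ENNReal.ofReal (δ n) = Metric.ediam (t n) := fun n => ENNReal.ofReal_toReal (hfin n)
  have hδ1 : ∀ n, δ n < 1 / b := by
    intro n
    have h1 : δ n ≤ 1 / (2 * b) := by
      have h2 := ENNReal.toReal_mono ENNReal.ofReal_ne_top (hdiam n)
      rwa [ENNReal.toReal_ofReal (by positivity)] at h2
    refine h1.trans_lt ?_
    rw [div_lt_div_iff₀ (by positivity) hb0]
    linarith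
  choose k hk1 hk2 hk3 using fun n => level b hb s hs (δ n) (ε' n) (hδ0 n) (hδ1 n) (hε' n)
  -- centres
  have hcen : ∀ n, ∃ c : ℝ, (t n).Nonempty → c ∈ t n := by
    intro n
    by_cases h : (t n).Nonempty
    · exact ⟨h.some, fun _ => h.some_mem⟩
    · exact ⟨0, fun h' => absurd h' h⟩
  choose cen hcen using hcen
  set U : ℕ → Set ℝ := fun n => if (t n).Nonempty then Metric.ball (cen n) (2 * (1 / (b : ℝ)) ^ k n) else ∅
    with hU
  have hUo : ∀ n, IsOpen (U n) := by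
    intro n
    rw [hU]
    simp only
    split_ifs
    · exact Metric.isOpen_ball
    · exact isOpen_empty
  have htU : ∀ n, t n ⊆ U n := by
    intro n u hu
    have hne : (t n).Nonempty := ⟨u, hu⟩
    rw [hU]
    simp only [hne, if_true]
    rw [Metric.mem_ball]
    have h1 : dist u (cen n) ≤ δ n := by
      rw [hδ]
      simp only
      rw [dist_edist]
      exact ENNReal.toReal_mono (hfin n) (Metric.edist_le_ediam_of_mem hu (hcen n hne))
    have h2 := hk2 n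
    have h3 : (0 : ℝ) < (1 / (b : ℝ)) ^ k n := by positivity
    linarith
  obtain ⟨I, hI⟩ := (O_compact b y).elim_finite_subcover U hUo (hcov.trans (Set.iUnion_mono htU))
  set J : Finset ℕ := I.filter fun n => (t n).Nonempty with hJ
  refine ⟨(J ×ˢ Finset.Icc (-2 : ℤ) 2).image fun u => (k u.1, ⌊cen u.1 * (b : ℝ) ^ k u.1⌋ + u.2),
    J.sup k, ?_, ?_, ?_⟩
  · intro f hf
    rw [Finset.mem_image] at hf
    obtain ⟨u, hu, rfl⟩ := hf
    rw [Finset.mem_product] at hu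
    exact ⟨hk1 _, Finset.le_sup hu.1⟩
  · intro i
    have hmem : Int.fract ((b : ℝ) ^ i * y) ∈ O b y := subset_closure ⟨i, rfl⟩
    obtain ⟨n, hn, hnU⟩ : ∃ n ∈ I, Int.fract ((b : ℝ) ^ i * y) ∈ U n := by
      have := hI hmem
      rw [Set.mem_iUnion₂] at this
      obtain ⟨n, hn, h⟩ := this
      exact ⟨n, hn, h⟩
    have hne : (t n).Nonempty := by
      by_contra hcon
      rw [hU] at hnU
      simp only [hcon, if_false] at hnU
      exact hnU
    rw [hU] at hnU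
    simp only [hne, if_true] at hnU
    rw [Metric.mem_ball, Real.dist_eq] at hnU
    set z := Int.fract ((b : ℝ) ^ i * y) with hz
    have hbk : (0 : ℝ) < (b : ℝ) ^ k n := by positivity
    have h1 : |z * (b : ℝ) ^ k n - cen n * (b : ℝ) ^ k n| < 2 := by
      rw [← sub_mul, abs_mul, abs_of_pos hbk]
      have h2 := mul_lt_mul_of_pos_right hnU hbk
      have h3 : 2 * (1 / (b : ℝ)) ^ k n * (b : ℝ) ^ k n = 2 := by
        rw [one_div, inv_pow]
        field_simp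
      rwa [h3] at h2
    have hw : word b (k n) y i = ⌊z * (b : ℝ) ^ k n⌋ := by
      rw [word_eq b hb, hz, mul_comm y]
    refine ⟨(k n, word b (k n) y i), ?_, rfl⟩
    rw [Finset.mem_image]
    refine ⟨(n, word b (k n) y i - ⌊cen n * (b : ℝ) ^ k n⌋), ?_, ?_⟩
    · rw [Finset.mem_product]
      refine ⟨Finset.mem_filter.2 ⟨hn, hne⟩, ?_⟩
      rw [Finset.mem_Icc, hw]
      simp only
      rw [abs_lt] at h1
      have a1 := Int.floor_le (z * (b : ℝ) ^ k n)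
      have a2 := Int.lt_floor_add_one (z * (b : ℝ) ^ k n)
      have a3 := Int.floor_le (cen n * (b : ℝ) ^ k n)
      have a4 := Int.lt_floor_add_one (cen n * (b : ℝ) ^ k n)
      have a5 : (-3 : ℝ) < ⌊z * (b : ℝ) ^ k n⌋ - ⌊cen n * (b : ℝ) ^ k n⌋ := by linarith
      have a6 : (⌊z * (b : ℝ) ^ k n⌋ : ℝ) - ⌊cen n * (b : ℝ) ^ k n⌋ < 3 := by linarith
      have a7 : (-3 : ℤ) < ⌊z * (b : ℝ) ^ k n⌋ - ⌊cen n * (b : ℝ) ^ k n⌋ := by exact_mod_cast a5
      have a8 : ⌊z * (b : ℝ) ^ k n⌋ - ⌊cen n * (b : ℝ) ^ k n⌋ < (3 : ℤ) := by exact_mod_cast a6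
      omega
    · simp
  · -- the sum
    have h1 : ∑ f ∈ (J ×ˢ Finset.Icc (-2 : ℤ) 2).image
          (fun u => (k u.1, ⌊cen u.1 * (b : ℝ) ^ k u.1⌋ + u.2)), (b : ℝ) ^ (-(s * f.1)) ≤
        ∑ u ∈ J ×ˢ Finset.Icc (-2 : ℤ) 2, (b : ℝ) ^ (-(s * k u.1)) := by
      refine Finset.sum_image_le_of_nonneg (g := fun u : ℕ × ℤ =>
        (k u.1, ⌊cen u.1 * (b : ℝ) ^ k u.1⌋ + u.2)) ?_
      intro u _
      positivity
    refine h1.trans ?_
    rw [Finset.sum_product]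
    simp only [Finset.sum_const, Int.card_Icc, nsmul_eq_mul]
    have h2 : ∑ n ∈ J, δ n ^ s ≤ ε := by
      have h3 : ∑ n ∈ J, Metric.ediam (t n) ^ s ≤ ENNReal.ofReal ε := by
        refine le_trans ?_ hsum.le
        refine le_trans (le_of_eq ?_) (ENNReal.sum_le_tsum J)
        refine Finset.sum_congr rfl fun n hn => ?_
        have hne : (t n).Nonempty := (Finset.mem_filter.1 hn).2
        simp [hne]
      have h4 : ∑ n ∈ J, Metric.ediam (t n) ^ s = ENNReal.ofReal (∑ n ∈ J, δ n ^ s) := by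
        rw [ENNReal.ofReal_sum_of_nonneg fun n _ => Real.rpow_nonneg (hδ0 n) s]
        refine Finset.sum_congr rfl fun n _ => ?_
        rw [← hδe n, ENNReal.ofReal_rpow_of_nonneg (hδ0 n) hs.le]
      rw [h4] at h3
      exact (ENNReal.ofReal_le_ofReal_iff hε0.le).1 h3
    have h5 : ∑ n ∈ J, ε' n ≤ ε := (sum_le_hasSum J (fun n _ => (hε' n).le) hc).trans hcε
    have h6 : ∑ n ∈ J, (b : ℝ) ^ (-(s * k n)) ≤ (B + 1) * ε := by
      calc ∑ n ∈ J, (b : ℝ) ^ (-(s * k n)) ≤ ∑ n ∈ J, (B * δ n ^ s + ε' n) :=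
            Finset.sum_le_sum fun n _ => hk3 n
        _ = B * ∑ n ∈ J, δ n ^ s + ∑ n ∈ J, ε' n := by
            rw [Finset.sum_add_distrib, Finset.mul_sum]
        _ ≤ B * ε + ε := add_le_add (mul_le_mul_of_nonneg_left h2 hB0.le) h5
        _ = (B + 1) * ε := by ring
    rw [← Finset.mul_sum]
    have h7 : (((2 : ℤ) + 1 - (-2)).toNat : ℝ) = 5 := by
      rw [show ((2 : ℤ) + 1 - (-2)).toNat = 5 by decide]
      norm_num
    rw [h7]
    calc (5 : ℝ) * ∑ n ∈ J, (b : ℝ) ^ (-(s * k n)) ≤ 5 * ((B + 1) * ε) := by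
          linarith
      _ = 1 := by rw [hε]; field_simp

/-- **Furstenberg.** -/
theorem words_of_dim (b : ℕ) (hb : 2 ≤ b) (y s : ℝ) (hs : 0 < s)
    (hd : dimH (O b y) < ENNReal.ofReal s) :
    ∃ K : ℕ, ∀ n : ℕ, ((W b y n).ncard : ℝ) ≤ (b : ℝ) ^ K * (b : ℝ) ^ (s * n) := by
  obtain ⟨F, K, h1, h2, h3⟩ := exists_prefix b hb y s hs hd
  exact ⟨K, fun n => parse b hb y s hs.le F K h1 h2 h3 n⟩

end Pool.Agent.R544.FD
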