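import Pool.Agent.R544.FD.Sub

/-!
The dimension of the orbit closure does not change under rational affine maps.
-/

set_option autoImplicit false

namespace Pool.Agent.R544.FD

open Finset Pool.Agent.R544.EM MeasureTheory Filter
open scoped ENNReal NNReal Topology

lemma floor_mul_int (Y : ℝ) (r : ℤ) : ∃ e ∈ Finset.Icc (-|r|) |r|, ⌊(r : ℝ) * Y⌋ = r * ⌊Y⌋ + e := by
  refine ⟨⌊(r : ℝ) * Int.fract Y⌋, ?_, ?_⟩
  · have h0 := Int.fract_nonneg Y
    have h1 := Int.fract_lt_one Y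
    have h2 : |(r : ℝ) * Int.fract Y| ≤ ((|r| : ℤ) : ℝ) := by
      rw [abs_mul, abs_of_nonneg h0, Int.cast_abs]
      nlinarith [abs_nonneg (r : ℝ)]
    rw [abs_le] at h2
    rw [Finset.mem_Icc]
    refine ⟨Int.le_floor.2 (by push_cast at h2 ⊢; linarith), ?_⟩
    have h3 : (⌊(r : ℝ) * Int.fract Y⌋ : ℝ) ≤ ((|r| : ℤ) : ℝ) := (Int.floor_le _).trans h2.2
    exact_mod_cast h3
  · have e : (r : ℝ) * Y = ((r * ⌊Y⌋ : ℤ) : ℝ) + r * Int.fract Y := by
      push_cast
      rw [← mul_add, Int.floor_add_fract]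
    conv_lhs => rw [e]
    rw [Int.floor_intCast_add]

lemma W_mul (b : ℕ) (hb : 2 ≤ b) (y : ℝ) (r : ℤ) (n : ℕ) :
    (W b (r * y) n).ncard ≤ (Finset.Icc (-|r|) |r|).card * (W b y n).ncard := by
  classical
  have hsub : W b (r * y) n ⊆ (fun u : ℤ × ℤ => (r * u.2 + u.1) % (b : ℤ) ^ n) ''
      ((Finset.Icc (-|r|) |r| : Finset ℤ) ×ˢ W b y n : Set (ℤ × ℤ)) := by
    rintro v ⟨i, rfl⟩
    obtain ⟨e, he, h⟩ := floor_mul_int (y * (b : ℝ) ^ (i + n)) r
    refine ⟨(e, word b n y i), ⟨he, ⟨i, rfl⟩⟩, ?_⟩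
    show (r * word b n y i + e) % (b : ℤ) ^ n = word b n (r * y) i
    unfold word
    rw [mul_assoc, h]
    rw [Int.add_emod (r * (⌊y * (b : ℝ) ^ (i + n)⌋ % (b : ℤ) ^ n)), Int.mul_emod, Int.emod_emod,
      ← Int.mul_emod, ← Int.add_emod]
  have hfin : ((Finset.Icc (-|r|) |r| : Finset ℤ) ×ˢ W b y n : Set (ℤ × ℤ)).Finite :=
    (Finset.finite_toSet _).prod (W_fin b hb y n)
  refine (Set.ncard_le_ncard hsub (hfin.image _)).trans ((Set.ncard_image_le hfin).trans (le_of_eq ?_))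
  rw [Set.ncard_prod, Set.ncard_coe_finset]

lemma W_div (b : ℕ) (hb : 2 ≤ b) (y : ℝ) (r : ℤ) (hr : r ≠ 0) (n : ℕ) :
    (W b y n).ncard ≤ ((Finset.Icc (-|r|) |r|).card * (Finset.Icc (-(2 * |r| + 1)) (2 * |r| + 1)).card) *
      (W b (r * y) n).ncard := by
  classical
  have hbn : (0 : ℤ) < (b : ℤ) ^ n := by positivity
  have hsub : W b y n ⊆ (fun u : (ℤ × ℤ) × ℤ => (u.2 - u.1.1 + (b : ℤ) ^ n * u.1.2) / r) ''
      (((Finset.Icc (-|r|) |r| ×ˢ Finset.Icc (-(2 * |r| + 1)) (2 * |r| + 1) : Finset (ℤ × ℤ)) :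
        Set (ℤ × ℤ)) ×ˢ W b (r * y) n : Set ((ℤ × ℤ) × ℤ)) := by
    rintro v ⟨i, rfl⟩
    obtain ⟨e, he, h⟩ := floor_mul_int (y * (b : ℝ) ^ (i + n)) r
    set A := ⌊y * (b : ℝ) ^ (i + n)⌋ with hA
    set v := word b n y i with hv
    set v' := word b n (r * y) i with hv'
    have hvA : v + (b : ℤ) ^ n * (A / (b : ℤ) ^ n) = A := by
      rw [hv, word, ← hA]
      exact Int.emod_add_mul_ediv _ _
    have hvB : v' + (b : ℤ) ^ n * ((r * A + e) / (b : ℤ) ^ n) = r * A + e := by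
      have h1 : v' = (r * A + e) % (b : ℤ) ^ n := by
        rw [hv', word, mul_assoc, h]
      rw [h1]
      exact Int.emod_add_mul_ediv _ _
    set j := (r * A + e) / (b : ℤ) ^ n - r * (A / (b : ℤ) ^ n) with hj
    have hkey : r * v = v' - e + (b : ℤ) ^ n * j := by
      rw [hj]
      linear_combination r * hvA - hvB
    have hv0 : 0 ≤ v := word_nonneg b hb n y i
    have hv1 : v < (b : ℤ) ^ n := word_lt b hb n y i
    have hv0' : 0 ≤ v' := word_nonneg b hb n (r * y) i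
    have hv1' : v' < (b : ℤ) ^ n := word_lt b hb n (r * y) i
    rw [Finset.mem_Icc] at he
    have hrv : |r * v| ≤ |r| * (b : ℤ) ^ n := by
      rw [abs_mul, abs_of_nonneg hv0]
      exact mul_le_mul_of_nonneg_left hv1.le (abs_nonneg r)
    rw [abs_le] at hrv
    have hr0 : 0 ≤ |r| := abs_nonneg r
    have hrb : |r| ≤ |r| * (b : ℤ) ^ n := le_mul_of_one_le_right hr0 hbn
    refine ⟨((e, j), v'), ⟨?_, ⟨i, rfl⟩⟩, ?_⟩
    · rw [Finset.mem_coe, Finset.mem_product]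
      refine ⟨Finset.mem_Icc.2 he, ?_⟩
      rw [Finset.mem_Icc]
      constructor
      · by_contra hcon
        have h2 : j ≤ -(2 * |r| + 1) - 1 := by
          simp only at hcon
          omega
        have h3 := mul_le_mul_of_nonneg_left h2 hbn.le
        nlinarith
      · by_contra hcon
        have h2 : 2 * |r| + 1 + 1 ≤ j := by
          simp only at hcon
          omega
        have h3 := mul_le_mul_of_nonneg_left h2 hbn.le
        nlinarith
    · show (v' - e + (b : ℤ) ^ n * j) / r = v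
      rw [← hkey, Int.mul_ediv_cancel_left _ hr]
  have hfin : (((Finset.Icc (-|r|) |r| ×ˢ Finset.Icc (-(2 * |r| + 1)) (2 * |r| + 1) : Finset (ℤ × ℤ)) :
        Set (ℤ × ℤ)) ×ˢ W b (r * y) n : Set ((ℤ × ℤ) × ℤ)).Finite :=
    (Finset.finite_toSet _).prod (W_fin b hb _ n)
  refine (Set.ncard_le_ncard hsub (hfin.image _)).trans ((Set.ncard_image_le hfin).trans (le_of_eq ?_))
  rw [Set.ncard_prod, Set.ncard_coe_finset, Finset.card_product]

lemma W_zero (b : ℕ) (hb : 2 ≤ b) (n : ℕ) : (W b 0 n).ncard = 1 := by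
  have : W b 0 n = {0} := by
    ext v
    constructor
    · rintro ⟨i, rfl⟩
      simp [word]
    · rintro rfl
      exact ⟨0, by simp [word]⟩
  rw [this, Set.ncard_singleton]

lemma dim_zero (b : ℕ) : dimH (O b 0) = 0 := by
  have : O b 0 = {0} := by
    unfold O
    simp
  rw [this, dimH_singleton]

lemma dim_le (b : ℕ) (hb : 2 ≤ b) (z y : ℝ) (c : ℕ) (h : ∀ n, (W b z n).ncard ≤ c * (W b y n).ncard) :
    dimH (O b z) ≤ dimH (O b y) := by
  have h1 := dim_add b hb z y 0 c fun n => by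
    rw [W_zero b hb, mul_one]
    exact h n
  rwa [dim_zero, add_zero] at h1

theorem dim_mul_int (b : ℕ) (hb : 2 ≤ b) (y : ℝ) (r : ℤ) (hr : r ≠ 0) :
    dimH (O b (r * y)) = dimH (O b y) :=
  le_antisymm (dim_le b hb _ _ _ fun n => W_mul b hb y r n) (dim_le b hb _ _ _ fun n => W_div b hb y r hr n)

lemma O_add_int (b : ℕ) (y : ℝ) (p : ℤ) : O b (y + p) = O b y := by
  unfold O
  congr 2
  funext n
  rw [mul_add, show (b : ℝ) ^ n * (p : ℝ) = (((b : ℤ) ^ n * p : ℤ) : ℝ) by push_cast; ring,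
    Int.fract_add_intCast]

/-- rational affine maps -/
theorem dim_affine (b : ℕ) (hb : 2 ≤ b) (y : ℝ) (r q : ℚ) (hr : r ≠ 0) :
    dimH (O b (r * y + q)) = dimH (O b y) := by
  -- the common denominator
  set N : ℤ := (r.den : ℤ) * q.den with hN
  have hN0 : N ≠ 0 := by
    rw [hN]
    exact mul_ne_zero (by exact_mod_cast r.den_nz) (by exact_mod_cast q.den_nz)
  have hr' : (r.den : ℝ) ≠ 0 := by exact_mod_cast r.den_nz
  have hq' : (q.den : ℝ) ≠ 0 := by exact_mod_cast q.den_nz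
  have e1 : (r : ℝ) * r.den = r.num := by
    rw [Rat.cast_def r]
    field_simp
  have e2 : (q : ℝ) * q.den = q.num := by
    rw [Rat.cast_def q]
    field_simp
  have e : (N : ℝ) * (r * y + q) = ((r.num * q.den : ℤ) : ℝ) * y + ((q.num * r.den : ℤ) : ℝ) := by
    rw [hN]
    push_cast
    rw [← e1, ← e2]
    ring
  rw [← dim_mul_int b hb (r * y + q) N hN0, e, O_add_int, dim_mul_int b hb]
  exact mul_ne_zero (Rat.num_ne_zero.2 hr) (by exact_mod_cast q.den_nz)

theorem dim_plus (b : ℕ) (hb : 2 ≤ b) (x y : ℝ) : dimH (O b (x + y)) ≤ dimH (O b x) + dimH (O b y) := by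
  have h1 := dim_sub b hb x (-y)
  rw [sub_neg_eq_add] at h1
  have h2 := dim_mul_int b hb y (-1) (by norm_num)
  have e : ((-1 : ℤ) : ℝ) * y = -y := by push_cast; ring
  rw [e] at h2
  rwa [h2] at h1

end Pool.Agent.R544.FD
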