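import Pool.Agent.R544.FD.Haus

/-!
The dimension of the orbit closure is subadditive and does not change under multiplication by an
integer.
-/

set_option autoImplicit false

namespace Pool.Agent.R544.FD

open Finset Pool.Agent.R544.EM MeasureTheory Filter
open scoped ENNReal NNReal Topology

lemma cover_liminf (X : Set ℝ) (d : ℝ) (A : ℕ → Finset ℤ) (T : ℕ → ℤ → Set ℝ) (r : ℕ → ℝ≥0∞)
    (hr : Tendsto r atTop (𝓝 0)) (hT : ∀ n v, Metric.ediam (T n v) ≤ r n)
    (hX : ∀ n, X ⊆ ⋃ v ∈ A n, T n v) :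
    μH[d] X ≤ liminf (fun n => ∑ v ∈ A n, Metric.ediam (T n v) ^ d) atTop := by
  have h := Measure.hausdorffMeasure_le_liminf_sum (β := ℕ) (ι := fun n => {v : ℤ // v ∈ A n}) d X
    (l := atTop) r hr (fun n v => T n v.1) (Eventually.of_forall fun n v => hT n v.1)
    (Eventually.of_forall fun n => (hX n).trans (by
      intro u hu
      rw [Set.mem_iUnion₂] at hu
      obtain ⟨v, hv, hu⟩ := hu
      rw [Set.mem_iUnion]
      exact ⟨⟨v, hv⟩, hu⟩))
  have e : (fun n => ∑ v : {v : ℤ // v ∈ A n}, Metric.ediam (T n v.1) ^ d) =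
      fun n => ∑ v ∈ A n, Metric.ediam (T n v) ^ d := by
    funext n
    exact Finset.sum_coe_sort (A n) fun v => Metric.ediam (T n v) ^ d
  rw [← e]
  exact h

/-- the number of words bounds the dimension -/
theorem dim_of_words (b : ℕ) (hb : 2 ≤ b) (z s C : ℝ) (hs : 0 ≤ s)
    (h : ∀ n : ℕ, ((W b z n).ncard : ℝ) ≤ C * (b : ℝ) ^ (s * n)) : dimH (O b z) ≤ ENNReal.ofReal s := by
  classical
  have hbR : (2 : ℝ) ≤ b := by exact_mod_cast hb
  have hb0 : (0 : ℝ) < b := by linarith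
  by_contra hcon
  rw [not_le] at hcon
  obtain ⟨d, hd1, hd2⟩ := ENNReal.lt_iff_exists_nnreal_btwn.1 hcon
  have htop := hausdorffMeasure_of_lt_dimH hd2
  have hsd : s < d := by
    have := (ENNReal.ofReal_lt_iff_lt_toReal hs ENNReal.coe_ne_top).1 hd1
    simpa using this
  have hd0 : (0 : ℝ) < d := by linarith
  have hp : ∀ n : ℕ, (0 : ℝ) < (b : ℝ) ^ n := fun n => by positivity
  obtain ⟨A, hA⟩ : ∃ A : ℕ → Finset ℤ, ∀ n, (A n : Set ℤ) = W b z n :=
    ⟨fun n => (W_fin b hb z n).toFinset, fun n => Set.Finite.coe_toFinset _⟩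
  have hAc : ∀ n, (A n).card = (W b z n).ncard := fun n => by rw [← hA n, Set.ncard_coe_finset]
  have hdm : ∀ (n : ℕ) (v : ℤ), Metric.ediam (Set.Icc ((v : ℝ) / (b : ℝ) ^ n) (((v : ℝ) + 1) / (b : ℝ) ^ n)) =
      ENNReal.ofReal ((1 / (b : ℝ)) ^ n) := by
    intro n v
    rw [Real.ediam_Icc]
    congr 1
    rw [← sub_div, add_sub_cancel_left, one_div, one_div, inv_pow]
  -- the covers
  have hle := cover_liminf (O b z) d A
    (fun n v => Set.Icc ((v : ℝ) / (b : ℝ) ^ n) (((v : ℝ) + 1) / (b : ℝ) ^ n))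
    (fun n : ℕ => ENNReal.ofReal ((1 / (b : ℝ)) ^ n)) (by
      have h1 : Tendsto (fun n : ℕ => (1 / (b : ℝ)) ^ n) atTop (𝓝 0) :=
        tendsto_pow_atTop_nhds_zero_of_lt_one (by positivity) (by rw [div_lt_one hb0]; linarith)
      have h2 := ENNReal.tendsto_ofReal h1
      rwa [ENNReal.ofReal_zero] at h2) (fun n v => (hdm n v).le) (by
      intro n
      refine closure_minimal ?_ (Set.Finite.isClosed_biUnion (A n).finite_toSet fun v _ => isClosed_Icc)
      rintro _ ⟨i, rfl⟩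
      rw [Set.mem_iUnion₂]
      refine ⟨word b n z i, ?_, ?_⟩
      · rw [← Finset.mem_coe, hA n]
        exact ⟨i, rfl⟩
      · show Int.fract ((b : ℝ) ^ i * z) ∈ Set.Icc _ _
        rw [Set.mem_Icc, div_le_iff₀ (hp n), le_div_iff₀ (hp n), word_eq b hb, mul_comm z]
        exact ⟨Int.floor_le _, (Int.lt_floor_add_one _).le⟩)
  have hC : 0 ≤ C := by
    have h0 := h 0
    have h1 : (0 : ℝ) ≤ (W b z 0).ncard := by positivity
    have h2 : (b : ℝ) ^ (s * ((0 : ℕ) : ℝ)) = 1 := by simp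
    rw [h2] at h0
    linarith
  have hbound : ∀ n : ℕ, ∑ v ∈ A n,
      Metric.ediam (Set.Icc ((v : ℝ) / (b : ℝ) ^ n) (((v : ℝ) + 1) / (b : ℝ) ^ n)) ^ (d : ℝ) ≤
      ENNReal.ofReal (C * ((b : ℝ) ^ (s - d)) ^ n) := by
    intro n
    have h1 : ∀ v ∈ A n,
        Metric.ediam (Set.Icc ((v : ℝ) / (b : ℝ) ^ n) (((v : ℝ) + 1) / (b : ℝ) ^ n)) ^ (d : ℝ) =
        ENNReal.ofReal ((b : ℝ) ^ (-((d : ℝ) * n))) := by
      intro v _
      rw [hdm, ENNReal.ofReal_rpow_of_nonneg (by positivity) hd0.le]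
      congr 1
      rw [one_div, ← Real.rpow_natCast, ← Real.rpow_neg_one, ← Real.rpow_mul hb0.le,
        ← Real.rpow_mul hb0.le]
      congr 1
      ring
    rw [Finset.sum_congr rfl h1, Finset.sum_const, hAc, nsmul_eq_mul, ← ENNReal.ofReal_natCast,
      ← ENNReal.ofReal_mul (by positivity)]
    refine ENNReal.ofReal_le_ofReal ?_
    have h2 : (0 : ℝ) < (b : ℝ) ^ (-((d : ℝ) * n)) := by positivity
    refine (mul_le_mul_of_nonneg_right (h n) h2.le).trans (le_of_eq ?_)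
    rw [mul_assoc, ← Real.rpow_add hb0, ← Real.rpow_natCast, ← Real.rpow_mul hb0.le]
    congr 2
    ring
  have hlim : Tendsto (fun n : ℕ => ENNReal.ofReal (C * ((b : ℝ) ^ (s - d)) ^ n)) atTop (𝓝 0) := by
    have h1 : (b : ℝ) ^ (s - d) < 1 := Real.rpow_lt_one_of_one_lt_of_neg (by linarith) (by linarith)
    have h2 := (tendsto_pow_atTop_nhds_zero_of_lt_one (by positivity) h1).const_mul C
    rw [mul_zero] at h2
    have h3 := ENNReal.tendsto_ofReal h2
    rwa [ENNReal.ofReal_zero] at h3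
  have hzero : μH[(d : ℝ)] (O b z) ≤ 0 := by
    refine hle.trans ?_
    have h1 := Filter.liminf_le_liminf (Eventually.of_forall hbound) (f := atTop)
    refine h1.trans ?_
    rw [hlim.liminf_eq]
  rw [htop] at hzero
  simp at hzero

/-- a bound for all numbers of words gives a bound for the dimensions -/
theorem dim_add (b : ℕ) (hb : 2 ≤ b) (z y y' : ℝ) (c : ℕ)
    (h : ∀ n, (W b z n).ncard ≤ c * ((W b y n).ncard * (W b y' n).ncard)) :
    dimH (O b z) ≤ dimH (O b y) + dimH (O b y') := by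
  have hfin : ∀ y : ℝ, dimH (O b y) ≠ ∞ := fun y =>
    ((dimH_mono (Set.subset_univ _)).trans_lt (by rw [Real.dimH_univ]; exact ENNReal.one_lt_top)).ne
  refine ENNReal.le_of_forall_pos_le_add fun e he _ => ?_
  have he2 : (0 : ℝ) < e / 2 := by positivity
  set s := (dimH (O b y)).toReal + e / 2 with hs
  set s' := (dimH (O b y')).toReal + e / 2 with hs'
  have hs0 : 0 < s := by positivity
  have hs0' : 0 < s' := by positivity
  have hlt : ∀ (y s : ℝ), s = (dimH (O b y)).toReal + e / 2 → dimH (O b y) < ENNReal.ofReal s := by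
    intro y s hs
    rw [hs, ← ENNReal.ofReal_toReal (hfin y)]
    rw [ENNReal.toReal_ofReal ENNReal.toReal_nonneg]
    exact (ENNReal.ofReal_lt_ofReal_iff (by positivity)).2 (by linarith)
  obtain ⟨K, hK⟩ := words_of_dim b hb y s hs0 (hlt y s hs)
  obtain ⟨K', hK'⟩ := words_of_dim b hb y' s' hs0' (hlt y' s' hs')
  have hbR : (2 : ℝ) ≤ b := by exact_mod_cast hb
  have hb0 : (0 : ℝ) < b := by linarith
  have h1 := dim_of_words b hb z (s + s') (c * ((b : ℝ) ^ K * (b : ℝ) ^ K')) (by positivity) (by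
    intro n
    have h2 : ((W b z n).ncard : ℝ) ≤ c * (((W b y n).ncard : ℝ) * ((W b y' n).ncard : ℝ)) := by
      exact_mod_cast h n
    refine h2.trans ?_
    calc (c : ℝ) * (((W b y n).ncard : ℝ) * ((W b y' n).ncard : ℝ))
        ≤ c * (((b : ℝ) ^ K * (b : ℝ) ^ (s * n)) * ((b : ℝ) ^ K' * (b : ℝ) ^ (s' * n))) := by
          have := hK n
          have := hK' n
          gcongr
      _ = c * ((b : ℝ) ^ K * (b : ℝ) ^ K') * ((b : ℝ) ^ (s * n) * (b : ℝ) ^ (s' * n)) := by ring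
      _ = c * ((b : ℝ) ^ K * (b : ℝ) ^ K') * (b : ℝ) ^ ((s + s') * n) := by
          rw [← Real.rpow_add hb0]
          congr 2
          ring)
  refine h1.trans (le_of_eq ?_)
  have e1 : s + s' = (dimH (O b y)).toReal + (dimH (O b y')).toReal + e := by rw [hs, hs']; ring
  rw [e1, ENNReal.ofReal_add (by positivity) (by positivity), ENNReal.ofReal_add (by positivity)
    (by positivity), ENNReal.ofReal_toReal (hfin y), ENNReal.ofReal_toReal (hfin y')]
  simp

/-- **Subadditivity.** -/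
theorem dim_sub (b : ℕ) (hb : 2 ≤ b) (y y' : ℝ) :
    dimH (O b (y - y')) ≤ dimH (O b y) + dimH (O b y') :=
  dim_add b hb _ _ _ 2 fun n => W_sub_le b hb y y' n

end Pool.Agent.R544.FD
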