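import Pool.Agent.R544.EM.Block

/-!
The number of words in an expansion, and words over a prefix set.
-/

set_option autoImplicit false

namespace Pool.Agent.R544.FD

open Finset Pool.Agent.R544.EM

lemma word_add (b : ℕ) (hb : 2 ≤ b) (k l : ℕ) (y : ℝ) (q : ℕ) :
    word b (k + l) y q = word b k y q * (b : ℤ) ^ l + word b l y (q + k) := by
  have hb0 : (0 : ℝ) < b := by positivity
  have hbk : (0 : ℤ) < (b : ℤ) ^ l := by positivity
  set N := ⌊y * (b : ℝ) ^ (q + k + l)⌋ with hN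
  have e1 : q + (k + l) = q + k + l := by ring
  have e2 : ⌊y * (b : ℝ) ^ (q + k)⌋ = N / (b : ℤ) ^ l := by
    have h1 : y * (b : ℝ) ^ (q + k) = y * (b : ℝ) ^ (q + k + l) / ((b ^ l : ℕ) : ℝ) := by
      push_cast
      rw [pow_add (b : ℝ) (q + k) l]
      field_simp
    rw [h1, Int.floor_div_natCast]
    push_cast
    rfl
  unfold word
  rw [e1, ← hN, e2]
  have e3 : (b : ℤ) ^ (k + l) = (b : ℤ) ^ l * (b : ℤ) ^ k := by
    rw [← pow_add]
    congr 1
    ring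
  rw [e3]
  have h1 := Int.emod_add_mul_ediv N ((b : ℤ) ^ l * (b : ℤ) ^ k)
  have h2 := Int.emod_add_mul_ediv N ((b : ℤ) ^ l)
  have h3 := Int.emod_add_mul_ediv (N / (b : ℤ) ^ l) ((b : ℤ) ^ k)
  have h4 : N / ((b : ℤ) ^ l * (b : ℤ) ^ k) = N / (b : ℤ) ^ l / (b : ℤ) ^ k :=
    (Int.ediv_ediv_of_nonneg hbk.le).symm
  rw [h4] at h1
  linear_combination h1 - h2 - (b : ℤ) ^ l * h3

/-- the words of length `n` in the expansion of `y` -/
def W (b : ℕ) (y : ℝ) (n : ℕ) : Set ℤ := {v | ∃ i, word b n y i = v}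

lemma W_sub (b : ℕ) (hb : 2 ≤ b) (y : ℝ) (n : ℕ) :
    W b y n ⊆ (Finset.Ico (0 : ℤ) ((b : ℤ) ^ n) : Set ℤ) := by
  rintro v ⟨i, rfl⟩
  rw [Finset.coe_Ico]
  exact ⟨word_nonneg b hb n y i, word_lt b hb n y i⟩

lemma W_fin (b : ℕ) (hb : 2 ≤ b) (y : ℝ) (n : ℕ) : (W b y n).Finite :=
  (Finset.finite_toSet _).subset (W_sub b hb y n)

lemma card_Ico_pow (b n : ℕ) : (Finset.Ico (0 : ℤ) ((b : ℤ) ^ n)).card = b ^ n := by
  rw [Int.card_Ico, sub_zero]
  exact_mod_cast Int.toNat_natCast (b ^ n)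

lemma W_le (b : ℕ) (hb : 2 ≤ b) (y : ℝ) (n : ℕ) : (W b y n).ncard ≤ b ^ n := by
  refine (Set.ncard_le_ncard (W_sub b hb y n) (Finset.finite_toSet _)).trans ?_
  rw [Set.ncard_coe_finset, card_Ico_pow]

/-- parsing -/
theorem parse (b : ℕ) (hb : 2 ≤ b) (y s : ℝ) (hs : 0 ≤ s) (F : Finset (ℕ × ℤ)) (K : ℕ)
    (hK : ∀ f ∈ F, 1 ≤ f.1 ∧ f.1 ≤ K) (hF : ∀ i, ∃ f ∈ F, word b f.1 y i = f.2)
    (hsum : ∑ f ∈ F, (b : ℝ) ^ (-(s * f.1)) ≤ 1) (n : ℕ) :
    ((W b y n).ncard : ℝ) ≤ (b : ℝ) ^ K * (b : ℝ) ^ (s * n) := by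
  classical
  have hbR : (2 : ℝ) ≤ b := by exact_mod_cast hb
  have hb0 : (0 : ℝ) < b := by linarith
  induction n using Nat.strong_induction_on with
  | _ n ih =>
    rcases Nat.lt_or_ge n K with hn | hn
    · have h1 : ((W b y n).ncard : ℝ) ≤ (b : ℝ) ^ n := by exact_mod_cast W_le b hb y n
      have h2 : (b : ℝ) ^ n ≤ (b : ℝ) ^ K := pow_le_pow_right₀ (by linarith) hn.le
      have h3 : (1 : ℝ) ≤ (b : ℝ) ^ (s * n) := Real.one_le_rpow (by linarith) (by positivity)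
      have h4 : (0 : ℝ) < (b : ℝ) ^ K := by positivity
      nlinarith
    · have hsub : W b y n ⊆ ⋃ f ∈ F, (fun u => f.2 * (b : ℤ) ^ (n - f.1) + u) '' W b y (n - f.1) := by
        rintro v ⟨i, rfl⟩
        obtain ⟨f, hf, hfw⟩ := hF i
        rw [Set.mem_iUnion₂]
        refine ⟨f, hf, word b (n - f.1) y (i + f.1), ⟨_, rfl⟩, ?_⟩
        have h1 := hK f hf
        have h2 := word_add b hb f.1 (n - f.1) y i
        rw [show f.1 + (n - f.1) = n by omega, hfw] at h2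
        exact h2.symm
      have hfin : ∀ f : ℕ × ℤ, ((fun u => f.2 * (b : ℤ) ^ (n - f.1) + u) '' W b y (n - f.1)).Finite :=
        fun f => (W_fin b hb y _).image _
      have h1 : (W b y n).ncard ≤ ∑ f ∈ F, (W b y (n - f.1)).ncard := by
        refine (Set.ncard_le_ncard hsub (Set.Finite.biUnion F.finite_toSet fun f _ => hfin f)).trans ?_
        refine (Finset.set_ncard_biUnion_le _ _).trans (Finset.sum_le_sum fun f _ => ?_)
        exact Set.ncard_image_le (W_fin b hb y _)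
      have h2 : ((W b y n).ncard : ℝ) ≤ ∑ f ∈ F, ((W b y (n - f.1)).ncard : ℝ) := by exact_mod_cast h1
      refine h2.trans ?_
      have h3 : ∀ f ∈ F, ((W b y (n - f.1)).ncard : ℝ) ≤
          (b : ℝ) ^ K * (b : ℝ) ^ (s * n) * (b : ℝ) ^ (-(s * f.1)) := by
        intro f hf
        have h4 := hK f hf
        refine (ih (n - f.1) (by omega)).trans (le_of_eq ?_)
        rw [mul_assoc, ← Real.rpow_add hb0]
        congr 2
        rw [Nat.cast_sub (by omega)]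
        ring
      refine (Finset.sum_le_sum h3).trans ?_
      rw [← Finset.mul_sum]
      have : 0 < (b : ℝ) ^ K * (b : ℝ) ^ (s * n) := by positivity
      nlinarith

/-- the words of a difference -/
theorem W_sub_le (b : ℕ) (hb : 2 ≤ b) (y y' : ℝ) (n : ℕ) :
    (W b (y - y') n).ncard ≤ 2 * ((W b y n).ncard * (W b y' n).ncard) := by
  classical
  have hbn : (0 : ℤ) < (b : ℤ) ^ n := by positivity
  have hsub : W b (y - y') n ⊆
      (fun u : ℤ × ℤ => (u.1 - u.2) % (b : ℤ) ^ n) '' (W b y n ×ˢ W b y' n) ∪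
      (fun u : ℤ × ℤ => (u.1 - u.2 - 1) % (b : ℤ) ^ n) '' (W b y n ×ˢ W b y' n) := by
    rintro v ⟨i, rfl⟩
    set Y := y * (b : ℝ) ^ (i + n) with hY
    set Y' := y' * (b : ℝ) ^ (i + n) with hY'
    have e : (y - y') * (b : ℝ) ^ (i + n) = Y - Y' := by rw [hY, hY']; ring
    have hf : ⌊Y - Y'⌋ = ⌊Y⌋ - ⌊Y'⌋ ∨ ⌊Y - Y'⌋ = ⌊Y⌋ - ⌊Y'⌋ - 1 := by
      have h1 := Int.floor_le Y
      have h2 := Int.lt_floor_add_one Y
      have h3 := Int.floor_le Y'
      have h4 := Int.lt_floor_add_one Y'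
      have h5 : ⌊Y⌋ - ⌊Y'⌋ - 1 ≤ ⌊Y - Y'⌋ := by
        rw [Int.le_floor]
        push_cast
        linarith
      have h6 : ⌊Y - Y'⌋ < ⌊Y⌋ - ⌊Y'⌋ + 1 := by
        rw [Int.floor_lt]
        push_cast
        linarith
      omega
    rcases hf with h | h
    · left
      refine ⟨(word b n y i, word b n y' i), ⟨⟨i, rfl⟩, ⟨i, rfl⟩⟩, ?_⟩
      show (word b n y i - word b n y' i) % (b : ℤ) ^ n = word b n (y - y') i
      unfold word
      rw [e, h, ← Int.sub_emod]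
    · right
      refine ⟨(word b n y i, word b n y' i), ⟨⟨i, rfl⟩, ⟨i, rfl⟩⟩, ?_⟩
      show (word b n y i - word b n y' i - 1) % (b : ℤ) ^ n = word b n (y - y') i
      unfold word
      rw [e, h, Int.sub_emod _ 1, ← Int.sub_emod ⌊Y⌋, ← Int.sub_emod _ 1]
  have hfin : (W b y n ×ˢ W b y' n).Finite := (W_fin b hb y n).prod (W_fin b hb y' n)
  refine (Set.ncard_le_ncard hsub ((hfin.image _).union (hfin.image _))).trans ?_
  refine (Set.ncard_union_le _ _).trans ?_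
  have h1 := Set.ncard_image_le (f := fun u : ℤ × ℤ => (u.1 - u.2) % (b : ℤ) ^ n) hfin
  have h2 := Set.ncard_image_le (f := fun u : ℤ × ℤ => (u.1 - u.2 - 1) % (b : ℤ) ^ n) hfin
  rw [Set.ncard_prod] at h1 h2
  omega

end Pool.Agent.R544.FD
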